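import Mathlib
import Pool.Agent.Q133.VetoCount

set_option autoImplicit false

/-!
# There is a double veto interval graph that is not a veto interval graph
-/

namespace Pool.Agent.Results.MP_db841c_co.DoubleVetoStrict

open Q133.VetoCount

/-- There is a finite graph with a double veto interval representation and without a veto interval
representation. -/
theorem result : ∃ (V : Type) (_ : Fintype V) (G : SimpleGraph V), IsDVI G ∧ ¬ IsVI G :=
  exists_dvi_not_vi

end Pool.Agent.Results.MP_db841c_co.DoubleVetoStrict
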